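import Pool.Agent.Helper60.MR.Re

/-!
# Splittings of `ℤ^n` and unimodular matrices
-/

set_option autoImplicit false

namespace Pool.Agent.Helper13.MR

open Pool.Agent.Helper41.MR

variable {n : ℕ} (c : Fin n → Fin n → Fin n → ℤ)

theorem tri_add1 (x x' y z : Fin n → ℤ) : tri c (x + x') y z = tri c x y z + tri c x' y z := by
  simp only [tri, Pi.add_apply, add_mul, mul_add, Finset.sum_add_distrib]

theorem tri_add2 (x y y' z : Fin n → ℤ) : tri c x (y + y') z = tri c x y z + tri c x y' z := by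
  simp only [tri, Pi.add_apply, add_mul, mul_add, Finset.sum_add_distrib]

theorem tri_add3 (x y z z' : Fin n → ℤ) : tri c x y (z + z') = tri c x y z + tri c x y z' := by
  simp only [tri, Pi.add_apply, mul_add, Finset.sum_add_distrib]

theorem tri_smul1 (a : ℤ) (x y z : Fin n → ℤ) : tri c (a • x) y z = a * tri c x y z := by
  simp only [tri, Pi.smul_apply, smul_eq_mul, Finset.mul_sum]
  refine Finset.sum_congr rfl fun i _ => Finset.sum_congr rfl fun j _ =>
    Finset.sum_congr rfl fun k _ => ?_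
  ring

theorem tri_smul2 (a : ℤ) (x y z : Fin n → ℤ) : tri c x (a • y) z = a * tri c x y z := by
  simp only [tri, Pi.smul_apply, smul_eq_mul, Finset.mul_sum]
  refine Finset.sum_congr rfl fun i _ => Finset.sum_congr rfl fun j _ =>
    Finset.sum_congr rfl fun k _ => ?_
  ring

theorem tri_smul3 (a : ℤ) (x y z : Fin n → ℤ) : tri c x y (a • z) = a * tri c x y z := by
  simp only [tri, Pi.smul_apply, smul_eq_mul, Finset.mul_sum]
  refine Finset.sum_congr rfl fun i _ => Finset.sum_congr rfl fun j _ =>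
    Finset.sum_congr rfl fun k _ => ?_
  ring

theorem tri_span (S : Set (Fin n → ℤ)) (h : ∀ x ∈ S, ∀ y ∈ S, ∀ z ∈ S, tri c x y z = 0) :
    ∀ x ∈ Submodule.span ℤ S, ∀ y ∈ Submodule.span ℤ S, ∀ z ∈ Submodule.span ℤ S,
      tri c x y z = 0 := by
  have h3 : ∀ x ∈ S, ∀ y ∈ S, ∀ z ∈ Submodule.span ℤ S, tri c x y z = 0 := by
    intro x hx y hy z hz
    induction hz using Submodule.span_induction with
    | mem z hz => exact h x hx y hy z hz
    | zero => simp [tri]
    | add z z' _ _ h1 h2 => rw [tri_add3, h1, h2, add_zero]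
    | smul a z _ h1 => rw [tri_smul3, h1, mul_zero]
  have h2 : ∀ x ∈ S, ∀ y ∈ Submodule.span ℤ S, ∀ z ∈ Submodule.span ℤ S, tri c x y z = 0 := by
    intro x hx y hy z hz
    induction hy using Submodule.span_induction with
    | mem y hy => exact h3 x hx y hy z hz
    | zero => simp [tri]
    | add y y' _ _ h1 h2 => rw [tri_add2, h1, h2, add_zero]
    | smul a y _ h1 => rw [tri_smul2, h1, mul_zero]
  intro x hx y hy z hz
  induction hx using Submodule.span_induction with
  | mem x hx => exact h2 x hx y hy z hz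
  | zero => simp [tri]
  | add x x' _ _ h1 h2 => rw [tri_add1, h1, h2, add_zero]
  | smul a x _ h1 => rw [tri_smul1, h1, mul_zero]

/-- A basis of `ℤ^n` adapted to a decomposition. -/
theorem exists_basis (A B : Submodule ℤ (Fin n → ℤ)) (h : IsCompl A B) :
    ∃ (k : ℕ) (β : Module.Basis (Fin n) ℤ (Fin n → ℤ)), (∀ i : Fin n, (i : ℕ) < k → β i ∈ A) ∧
      ∀ i : Fin n, k ≤ (i : ℕ) → β i ∈ B := by
  obtain ⟨a, ⟨bA⟩⟩ : ∃ a, Nonempty (Module.Basis (Fin a) ℤ A) :=
    ⟨_, ⟨Module.finBasis ℤ A⟩⟩
  obtain ⟨b, ⟨bB⟩⟩ : ∃ b, Nonempty (Module.Basis (Fin b) ℤ B) :=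
    ⟨_, ⟨Module.finBasis ℤ B⟩⟩
  let γ : Module.Basis (Fin a ⊕ Fin b) ℤ (Fin n → ℤ) :=
    (bA.prod bB).map (Submodule.prodEquivOfIsCompl A B h)
  have hcard : a + b = n := by
    have h1 := Module.finrank_eq_card_basis γ
    rw [Module.finrank_eq_card_basis (Pi.basisFun ℤ (Fin n))] at h1
    simp only [Fintype.card_sum, Fintype.card_fin] at h1
    exact h1.symm
  let e : Fin a ⊕ Fin b ≃ Fin n := finSumFinEquiv.trans (finCongr hcard)
  refine ⟨a, γ.reindex e, fun i hi => ?_, fun i hi => ?_⟩
  · have h1 : e.symm i = Sum.inl ⟨i, hi⟩ := by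
      rw [Equiv.symm_apply_eq]
      ext
      simp [e]
    rw [Module.Basis.reindex_apply, h1]
    simp only [γ, Module.Basis.map_apply, Module.Basis.prod_apply_inl_fst,
      Submodule.coe_prodEquivOfIsCompl', Module.Basis.prod_apply_inl_snd, Submodule.coe_zero,
      add_zero]
    exact Subtype.coe_prop _
  · have hib : (i : ℕ) - a < b := by
      have := i.2
      omega
    have h1 : e.symm i = Sum.inr ⟨(i : ℕ) - a, hib⟩ := by
      rw [Equiv.symm_apply_eq]
      ext
      simp [e]
      omega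
    rw [Module.Basis.reindex_apply, h1]
    simp only [γ, Module.Basis.map_apply, Module.Basis.prod_apply_inr_fst,
      Submodule.coe_prodEquivOfIsCompl', Module.Basis.prod_apply_inr_snd, Submodule.coe_zero,
      zero_add]
    exact Subtype.coe_prop _

theorem splits_iff : Pool.Agent.Helper60.MR.SplitsIff := by
  intro n c
  constructor
  · rintro ⟨A, B, hAB, hA, hB⟩
    obtain ⟨k, β, h1, h2⟩ := exists_basis A B hAB
    refine ⟨k, fun i => β i, fun l j => β.repr (Pi.single l 1) j, fun i j => ?_, ?_, ?_⟩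
    · have h3 : β i = ∑ l, β i l • (Pi.single l 1 : Fin n → ℤ) := by
        ext m
        simp [Finset.sum_apply, Pi.single_apply]
      have h4 := congrArg (fun v => β.repr v j) h3
      simp only [Module.Basis.repr_self, map_sum, map_smul, Finsupp.coe_finsetSum,
        Finset.sum_apply, Finsupp.coe_smul, Pi.smul_apply, smul_eq_mul] at h4
      rw [← h4, Finsupp.single_apply]
    · intro i j l hi hj hl
      exact hA _ (h1 i hi) _ (h1 j hj) _ (h1 l hl)
    · intro i j l hi hj hl
      exact hB _ (h2 i hi) _ (h2 j hj) _ (h2 l hl)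
  · rintro ⟨k, P, Q, hPQ, h1, h2⟩
    have hmul : (Matrix.of P) * (Matrix.of Q) = (1 : Matrix (Fin n) (Fin n) ℤ) := by
      ext i j
      rw [Matrix.mul_apply, Matrix.one_apply]
      exact hPQ i j
    have hmul' : (Matrix.of Q) * (Matrix.of P) = (1 : Matrix (Fin n) (Fin n) ℤ) :=
      mul_eq_one_comm.mp hmul
    let T : (Fin n → ℤ) ≃ₗ[ℤ] (Fin n → ℤ) :=
      LinearEquiv.ofLinearMap (Matrix.vecMulLinear (Matrix.of P))
        (Matrix.vecMulLinear (Matrix.of Q))
        (LinearMap.ext fun x => by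
          rw [LinearMap.comp_apply, Matrix.vecMulLinear_apply, Matrix.vecMulLinear_apply,
            Matrix.vecMul_vecMul, hmul', Matrix.vecMul_one, LinearMap.id_apply])
        (LinearMap.ext fun x => by
          rw [LinearMap.comp_apply, Matrix.vecMulLinear_apply, Matrix.vecMulLinear_apply,
            Matrix.vecMul_vecMul, hmul, Matrix.vecMul_one, LinearMap.id_apply])
    let β : Module.Basis (Fin n) ℤ (Fin n → ℤ) := (Pi.basisFun ℤ (Fin n)).map T
    have hβ : ∀ i, β i = P i := by
      intro i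
      simp only [β, Module.Basis.map_apply, Pi.basisFun_apply, T, LinearEquiv.coe_ofLinearMap,
        Matrix.vecMulLinear_apply]
      rw [Matrix.single_one_vecMul]
      rfl
    refine ⟨Submodule.span ℤ (β '' {i | (i : ℕ) < k}), Submodule.span ℤ (β '' {i | k ≤ (i : ℕ)}),
      ⟨?_, ?_⟩, ?_, ?_⟩
    · apply β.linearIndependent.disjoint_span_image
      rw [Set.disjoint_left]
      intro i hi hi'
      simp only [Set.mem_ofPred_eq] at hi hi'
      omega
    · rw [codisjoint_iff, ← Submodule.span_union, ← Set.image_union]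
      have : {i : Fin n | (i : ℕ) < k} ∪ {i | k ≤ (i : ℕ)} = Set.univ := by
        ext i
        simp only [Set.mem_union, Set.mem_ofPred_eq, Set.mem_univ, iff_true]
        omega
      rw [this, Set.image_univ, β.span_eq]
    · apply tri_span
      rintro _ ⟨i, hi, rfl⟩ _ ⟨j, hj, rfl⟩ _ ⟨l, hl, rfl⟩
      rw [hβ, hβ, hβ]
      exact h1 i j l hi hj hl
    · apply tri_span
      rintro _ ⟨i, hi, rfl⟩ _ ⟨j, hj, rfl⟩ _ ⟨l, hl, rfl⟩
      rw [hβ, hβ, hβ]
      exact h2 i j l hi hj hl

/-- The splitting alternating forms are a recursively enumerable set. -/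
theorem re_splits (n : ℕ) :
    REPred fun c : Fin n → Fin n → Fin n → ℤ => IsAlt c ∧ Splits c :=
  Pool.Agent.Helper60.MR.re_splits_of splits_iff n

end Pool.Agent.Helper13.MR
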